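import Pool.Agent.J6H9.AB.Fin

/-!
# The Tate conjecture for divisors on wild and tame abelian coverings of affine spaces of every dimension:
# all positions of the branch hypersurfaces

Let `n = d + 1 ≥ 1` and let `R_i`, `i < r`, be pairwise coprime natural numbers, `M = ∏ R_i ≥ 2`; let `k` be
a finite field of characteristic `c = 1` modulo `M` which contains the roots of unity of order `M`,
`q = |k|`.  Let `h_l`, `l < n'`, and `g_o`, `o < w`, be ANY polynomials in `t_0, ..., t_d` over `k` of
the form

  `p(t_0) + γ_1 t_1 + ... + γ_d t_d`, `deg p ≤ D`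

(for `D = 1`: any affine linear functions), `b_{il} ≥ 0` with `D ∑_i (∑_l b_{il}) / P_i < 1`, where `P_i`
is the least prime factor of `R_i`.  Let `Z` be the affine variety of dimension `n` with the
coordinates `t_0, ..., t_d`, `u_i`, `i < r`, `w_o`, `o < w`, and the equations

  `u_i ^ R_i = ∏_l h_l(t) ^ b_{il}` for all `i`, `w_o ^ c - w_o = g_o(t)` for all `o`.

It is an abelian covering of the affine space of dimension `n`, whose group is the product of a cyclic group
of order `M` and any number of cyclic groups of order `c`; the `w_o` are wildly ramified at infinity.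
No position of the hypersurfaces `h_l(t) = 0` is excluded.

The zeta function of `Z` is the product of the L-functions of the characters `(s, λ)`, `0 ≤ s_i < R_i`,
`λ ∈ {0, ..., c - 1} ^ w`, which are rational functions (Dwork, Grothendieck).  The inverse of the
`(s, λ)`-factor is written as `∏_α (1 - α T) ^ Λ_{s,λ}(α)`, where `Λ_{s,λ}` is a function on `E` with integral values
and finite support; this means that `∑_α Λ_{s,λ}(α) α ^ [L : k] = charSum_L(s, λ)` for all the finite
extensions `L` of `k` (`IsDivisor`), where `charSum_L(s, λ)` is the sum over `t ∈ L ^ n` of the values of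
the character; here the L-function is `exp (∑_e charSum_{L_e} T ^ e / e) = ∏_α (1 - α T) ^ (-Λ(α))`.

**Theorem.**  (1) `∑_{s,λ} ∑_α Λ_{s,λ}(α) α ^ e` is the number of the points of `Z` over the extension of
`k` of degree `e`, so the zeta function of `Z` is `∏_{s,λ} ∏_α (1 - α T) ^ (-Λ_{s,λ}(α))`.
(2) At `T = ζ q ^ (-(n - 1))`, `ζ` any root of unity, none of these L-functions has a zero or a pole.
(3) The zeta function of `Z` itself, given by the numbers of its points, has neither a zero nor a pole
there; so over every finite extension `k'` of `k` its order at `s = n - 1 = dim Z - 1` is zero.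

This is the Tate conjecture for divisors for the smooth projective models `X` of `Z` (over all the finite
extensions of `k`, if `Z` is geometrically irreducible).  Indeed, let `Z'` be the normalization of `Z` and
`U` an open subset of the regular locus of `Z'`, `codim (Z' - U) ≥ 2`, which is an open subset of `X`.
`Z' → Z` is bijective up to codimension two (the multiplicities of the branch divisors are prime to the
`R_i`), so by (3) the zeta function of `U` has the order `0` at `s = n - 1`, and the order of the pole of
the zeta function of `X` is the number of the components of dimension `n - 1` of `X - U`.  `Z'` is totally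
ramified over the divisor at infinity of the weighted projective space (the weights of `t_0` and `t_j`
are `1` and `D`), so there is one divisor at infinity, all the units on `U` are constant, and the classes of the
components of `X - U` are linearly independent.  So the order of the pole of the zeta function of `X` at
`s = dim X - 1` is the Picard number, which is the Tate conjecture for divisors.  (These consequences
are not formalized.)

The proof is a `c`-adic estimate of the mixed sums of multiplicative and additive characters: Gauss sums turn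
the characters of the `h_l` into additive characters, the sum over `t_1, ..., t_d` is then a power of
`q` or zero, the sum over `t_0` is divisible by `q ^ (1/D)`, and the Gauss sums are known by the theorem of
Stickelberger, after a Galois conjugation of the character which depends on `s` and which fixes `ζ q ^ (n - 1)`
up to a root of unity.
-/

set_option autoImplicit false

namespace Pool.Agent.Results.MP_17a657_ag.AbelianCoveringsOfAffineSpace

open Finset Polynomial

/-- The function `p(t₀) + γ₁ t₁ + ... + γ_d t_d` on the affine space with the coordinates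
`t₀, ..., t_d`. -/
noncomputable def value {L : Type} [Field L] {d : ℕ} (p : L[X]) (γ : Fin d → L)
    (t : Fin (d + 1) → L) : L := p.eval (t 0) + ∑ o : Fin d, γ o * t o.succ

/-- The character of the group generated by the primitive root of unity `z` of order `N`, with `z ↦ μ`, at
`y` (and zero if `y` is not in this group). -/
noncomputable def chr {L A : Type} [Field L] [CommRing A] (N : ℕ) (z : L) (μ : A) (y : L) : A := by
  classical exact ∑ k ∈ range N, if y = z ^ k then μ ^ k else 0

/-- The absolute trace `y + y ^ c + y ^ (c ^ 2) + ...` of the finite field `L` of characteristic `c`. -/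
noncomputable def trace (L : Type) [Field L] [Fintype L] (c : ℕ) (y : L) : L :=
  ∑ m ∈ range (Nat.log c (Fintype.card L)), y ^ (c ^ m)

/-- The additive character `y ↦ ν ^ Tr(y)` of the finite field `L` of characteristic `c`. -/
noncomputable def addChr (L : Type) [Field L] [Fintype L] (A : Type) [CommRing A] (c : ℕ) (ν : A)
    (y : L) : A := by
  classical exact ∑ i ∈ range c, if trace L c y = (i : L) then ν ^ i else 0

/-- The sum over the points `t` with coordinates in `L` of the values at
`∏_i ∏_l h_l(t) ^ ((M / R_i) (s_i b_{il} mod R_i))`, `M = ∏ R_i`, of the character of order `M` of `L`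
belonging to `z ↦ μ`, that is `y ↦ chr (y ^ ((|L| - 1) / M))`, times the values
`ν ^ Tr(∑ λ_o g_o(t))` of the additive character. -/
noncomputable def charSum (L : Type) [Field L] [Fintype L] (A : Type) [CommRing A] {r : ℕ}
    (R : Fin r → ℕ) (c : ℕ) {d n w : ℕ} (h : Fin n → L[X]) (η : Fin n → Fin d → L)
    (b : Fin r → Fin n → ℕ) (g : Fin w → L[X]) (θ : Fin w → Fin d → L) (z : L) (μ ν : A)
    (s : Fin r → ℕ) (lam : Fin w → Fin c) : A :=
  ∑ t : Fin (d + 1) → L, chr (∏ i, R i) z μ
    ((∏ i, ∏ l, (value (h l) (η l) t) ^ ((∏ k, R k) / R i * (s i * b i l % R i))) ^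
      ((Fintype.card L - 1) / (∏ i, R i))) *
    addChr L A c ν (∑ o, ((lam o : ℕ) : L) * value (g o) (θ o) t)

/-- The number of the points `(t, u, w)` with coordinates in `L` of the variety `Z`:
`u_i ^ R_i = ∏ h_l(t) ^ b_{il}` for all `i` and `w_o ^ c - w_o = g_o(t)` for all `o`. -/
noncomputable def points (L : Type) [Field L] {r : ℕ} (R : Fin r → ℕ) (c : ℕ) {d n w : ℕ}
    (h : Fin n → L[X]) (η : Fin n → Fin d → L) (b : Fin r → Fin n → ℕ) (g : Fin w → L[X])
    (θ : Fin w → Fin d → L) : ℕ :=
  Set.ncard {v : (Fin (d + 1) → L) × (Fin r → L) × (Fin w → L) |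
    (∀ i, v.2.1 i ^ R i = ∏ l, (value (h l) (η l) v.1) ^ b i l) ∧
    ∀ o, v.2.2 o ^ c - v.2.2 o = value (g o) (θ o) v.1}

/-- `∏_α (1 - α T) ^ (-Λ(α))` is the L-function of the character `(s, λ)`: for every finite extension `L`
of `k`, of degree `e`, the sum of the `Λ(α) α ^ e` is `charSum` over `L`. -/
def IsDivisor (k : Type) [Field k] [Fintype k] {E : Type} [Field E] {r : ℕ} (R : Fin r → ℕ) (c : ℕ)
    {d n w : ℕ} (h : Fin n → k[X]) (η : Fin n → Fin d → k) (b : Fin r → Fin n → ℕ)
    (g : Fin w → k[X]) (θ : Fin w → Fin d → k) (z : k) (μ ν : E) (s : Fin r → ℕ)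
    (lam : Fin w → Fin c) (Λ : E →₀ ℤ) : Prop :=
  ∀ (L : Type) [Field L] [Fintype L] [Algebra k L],
    Λ.sum (fun α m => (m : E) * α ^ Module.finrank k L)
      = charSum L E R c (fun l => (h l).map (algebraMap k L)) (fun l o => algebraMap k L (η l o)) b
        (fun l => (g l).map (algebraMap k L)) (fun l o => algebraMap k L (θ l o))
        (algebraMap k L z) μ ν s lam

/-- `∏_α (1 - α T) ^ (-Z(α))` is the zeta function of the variety: for every finite extension `L`
of `k`, of degree `e`, the sum of the `Z(α) α ^ e` is the number of its points over `L`. -/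
def IsZeta (k : Type) [Field k] [Fintype k] {E : Type} [Field E] {r : ℕ} (R : Fin r → ℕ) (c : ℕ)
    {d n w : ℕ} (h : Fin n → k[X]) (η : Fin n → Fin d → k) (b : Fin r → Fin n → ℕ)
    (g : Fin w → k[X]) (θ : Fin w → Fin d → k) (Z : E →₀ ℤ) : Prop :=
  ∀ (L : Type) [Field L] [Fintype L] [Algebra k L],
    Z.sum (fun α m => (m : E) * α ^ Module.finrank k L)
      = (points L R c (fun l => (h l).map (algebraMap k L)) (fun l o => algebraMap k L (η l o)) b
        (fun l => (g l).map (algebraMap k L)) (fun l o => algebraMap k L (θ l o)) : E)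

/-- **Tate's conjecture for divisors (the zeta function has neither a zero nor a pole at `s = dim Z - 1`)
for wild and tame abelian coverings of affine spaces of arbitrary dimension.** -/
theorem result (r c D d : ℕ) (R : Fin r → ℕ) (hR : ∀ i, 0 < R i)
    (hRc : ∀ i j, i ≠ j → (R i).Coprime (R j)) (hM : 2 ≤ ∏ i, R i)
    [Fact c.Prime] (hc : (∏ i, R i) ∣ c - 1) (k : Type) [Field k] [Fintype k] [CharP k c]
    (z : k) (hz : IsPrimitiveRoot z (∏ i, R i))
    (E : Type) [Field E] [CharZero E] [IsAlgClosed E] (μ ν : E) (hμ : IsPrimitiveRoot μ (∏ i, R i))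
    (hν : IsPrimitiveRoot ν c) (n w : ℕ) (hD : 1 ≤ D)
    (h : Fin n → k[X]) (η : Fin n → Fin d → k) (hh : ∀ l, (h l).natDegree ≤ D)
    (b : Fin r → Fin n → ℕ)
    (hb : (D : ℚ) * ∑ i, (∑ l, (b i l : ℚ)) / ((R i).minFac : ℚ) < 1)
    (g : Fin w → k[X]) (θ : Fin w → Fin d → k) (hg : ∀ o, (g o).natDegree ≤ D)
    (Λ : (Fin r → ℕ) → (Fin w → Fin c) → E →₀ ℤ)
    (hΛ : ∀ s lam, (∀ i, s i < R i) → IsDivisor k R c h η b g θ z μ ν s lam (Λ s lam)) :
    (∀ (L : Type) [Field L] [Fintype L] [Algebra k L],
      ∑ s ∈ Fintype.piFinset (fun i => range (R i)), ∑ lam : Fin w → Fin c,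
          (Λ s lam).sum (fun α m => (m : E) * α ^ Module.finrank k L)
        = (points L R c (fun l => (h l).map (algebraMap k L)) (fun l o => algebraMap k L (η l o)) b
            (fun l => (g l).map (algebraMap k L)) (fun l o => algebraMap k L (θ l o)) : E)) ∧
    ∀ (T₀ : E) (m : ℕ), 0 < m → (T₀ * (Fintype.card k : E) ^ d) ^ m = 1 →
      (∀ s lam, (∀ i, s i < R i) → Λ s lam T₀⁻¹ = 0) ∧
      ∀ Z : E →₀ ℤ, IsZeta k R c h η b g θ Z → Z T₀⁻¹ = 0 := by
  have hA : ∀ s lam, (∀ i, s i < R i) → ∀ (L : Type) [Field L] [Fintype L] [Algebra k L],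
      (Λ s lam).sum (fun x m => (m : E) * x ^ Module.finrank k L) =
        Pool.Agent.J6H9.AB.wS L E R c
          (fun l => Pool.Agent.J6H9.AC.val ((h l).map (algebraMap k L))
            (fun o => algebraMap k L (η l o))) b
          (fun l => Pool.Agent.J6H9.AC.val ((g l).map (algebraMap k L))
            (fun o => algebraMap k L (θ l o)))
          (algebraMap k L z) μ ν s lam := fun s lam hs L _ _ _ => hΛ s lam hs L
  obtain ⟨h1, h2⟩ := Pool.Agent.J6H9.AB.finG R hR hRc hM hc k hz hμ hν hD h η hh b hb g θ hg Λ hA
  refine ⟨fun L _ _ _ => h1 L, fun T₀ m hm hT => ?_⟩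
  have hx : T₀⁻¹ ^ m = ((Fintype.card k : E) ^ d) ^ m := by
    rw [mul_pow] at hT
    rw [inv_pow]
    exact inv_eq_of_mul_eq_one_right hT
  exact ⟨fun s lam hs => h2 s lam hs T₀⁻¹ m hm hx, fun Z hZ =>
    Pool.Agent.J6H9.AB.zetaG R hR hRc hM hc k hz hμ hν hD h η hh b hb g θ hg Λ hA Z hZ T₀⁻¹ m hm hx⟩

end Pool.Agent.Results.MP_17a657_ag.AbelianCoveringsOfAffineSpace
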