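import Pool.Agent.J6H24.SS.FinT

/-!
# The Tate conjecture for divisors on fibred surfaces in abelian coverings of the base curve

Let `k` be any finitely generated field (a number field, a finite field, a function field over one of
these), `f : 𝒳 → X` a smooth projective surface over `k` fibred over a curve, `K` the function field of
`X`, and `M` a Galois extension of `K` whose group `G` is abelian of order a power of a prime `p`, with
the same field of constants. Let `X'` be the curve belonging to `M` and `𝒳' → X'` the smooth projective
surface with the generic fibre of `𝒳` over `M`; in general its geometric genus is arbitrarily large. If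
`𝓕'` is the first direct image on `X'` (middle extension) then `H²(𝒳')` is the direct sum of
`V = H¹(X', 𝓕')` and of the space spanned by the classes of the components of the fibres and of a
multisection; all groups are taken over the algebraic closure of `k`, with coefficients in an
algebraically closed field `E` containing the `ℓ`-adic numbers.

Let `w` be a place of `k` (a closed point of a model) with the residue field of `q = q_w` elements,
`p ∤ q_w`, `ℓ ∤ q_w`, of good reduction for the surfaces and the covering: the branch points of the covering
stay different and the fibration keeps its type. The reduction of the curve `X` at `w` has closed points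
`v`, the reduction of the sheaf the Euler polynomials `P_v(T)` and the L-function
`N / D = ∏ P_v(T ^ deg v)⁻¹`, and the covering is ramified at a finite set `T` of the `v`, where the
sheaf is unramified or unipotent; the constant part of the generic fibre does not grow over `M`. These
data and the Frobenius `Φ_w` on `V` are a `Reduct`. For a character `χ ≠ 1` of `G` let

`red_χ = N / D · ∏ P_v(T ^ deg v)  mod p`,

the product over the ramified points `v` of `χ`, let `order_w χ` be the order of its zero `1 / q_w`, and
`sign_w χ = 1` if `p = 2`, `χ² = 1` and `det Φ_w = -q_w ^ dim` on the part of `χ`, and `0` otherwise.

Theorem. (1) The dimension of the part of `χ ≠ 1` of the space of the Tate classes in `V` is at most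
`order_w χ - sign_w χ`, for all these places `w`.
(2) Let `A` be a space of Tate classes in `V` (for example the one spanned by the sections: the points
over `M` of the Jacobian of the generic fibre), such that for every `χ ≠ 1` there is a place `w` with
`order_w χ ≤ dim A_χ + sign_w χ`. If `A` contains the Tate classes which are invariant under `G` (this
is the Tate conjecture for divisors on `𝒳`), then it contains all Tate classes.
(3) In this case all Tate classes in `H²(𝒳')` are algebraic if those in `A` are and if those in the
space spanned by the components of the fibres and the multisection are (this is so by definition).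

So the Tate conjecture for divisors on `𝒳` implies that on `𝒳'`, for all `ℓ`, if the orders of
the zeros of polynomials over `𝔽_p` which belong to the reductions of the curve `X` and not to `X'` are
not larger than the number of known sections in the parts of the characters; different places may be
used for different characters.

For example let `𝒳` be an extremal rational elliptic surface over the line, so that `N = D = 1`. If for
every nontrivial character `χ` there is a place `w` such that the numbers of points of the fibres over
the residue fields of the ramified points `v` of `χ` are prime to `p`, then the elliptic curve has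
finitely many points over `M`, and the Tate conjecture for divisors holds for `𝒳'` over `k`. In general
the same is true for an elliptic surface if in addition `N(1 / q_w) ≠ 0` modulo `p`.

Proof. `χ(F_v)` is a root of unity of `p`-power order, so that the L-functions of `𝓕` and `𝓕 ⊗ χ`
(without the ramified points) are congruent modulo the places above `p` (library `J6H24/SS`). For
`p = 2` and `sign_w χ = 1` there is an eigenvalue `-q_w = q_w` modulo 2 in addition.
-/

set_option autoImplicit false

namespace Pool.Agent.Results.MP_17a657_ag.CoveringsOverAnyField

open Module Pool.Agent.J6H24.SS

variable {p : ℕ} [Fact p.Prime] {G : Type} [CommGroup G] {E : Type} [Field E] {V : Type}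
  [AddCommGroup V] [Module E V] [FiniteDimensional E V] {W : Type} [AddCommGroup W] [Module E W]
  {ρ : G →* Module.End E V} {B : LinearMap.BilinForm E V}

/-- For every `χ ≠ 1` there is a place `w` in `P` with `order_w χ ≤ dim A_χ + sign_w χ`. -/
def Enough (P : Set (Reduct p ρ B)) (A : Submodule E V) : Prop :=
  ∀ χ : G →* E, χ ≠ 1 → ∃ w ∈ P, w.order χ ≤ rank ρ A χ + w.sign χ

/-- `A` consists of Tate classes, contains the invariant Tate classes, and there are enough of them. -/
structure Good (P : Set (Reduct p ρ B)) (A : Submodule E V) : Prop where
  tate : A ≤ tate P
  invariant : Pool.Agent.J6H24.SS.tate P ⊓ piece ρ 1 ≤ A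
  enough : Enough P A

/-- (1) The bound for the Tate classes in the part of `χ`. -/
def Bound (P : Set (Reduct p ρ B)) : Prop :=
  ∀ χ : G →* E, χ ≠ 1 → ∀ w ∈ P, rank ρ (tate P) χ + w.sign χ ≤ w.order χ

/-- (3) The space `A'` contains all the Tate classes in `W` if it contains the image of `A` and the
Tate classes in the space `F`. -/
def Surface (P : Set (Reduct p ρ B)) (A : Submodule E V) (W : Type) [AddCommGroup W]
    [Module E W] : Prop :=
  ∀ (Ψ : Reduct p ρ B → Module.End E W) (i : V →ₗ[E] W) (F A' : Submodule E W),
    IsSurface P Ψ i F → (∀ x ∈ A, i x ∈ A') →
      F ⊓ classes P Ψ (fun w : Reduct p ρ B => w.q) ≤ A' →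
        classes P Ψ (fun w : Reduct p ρ B => w.q) ≤ A'

/-- The Tate conjecture for divisors on fibred surfaces in abelian coverings of the base curve. -/
theorem result {s : ℕ} [Fintype G] (hG : ∀ g : G, g ^ p ^ s = 1) [CharZero E] [IsAlgClosed E]
    (P : Set (Reduct p ρ B)) :
    Bound P ∧ ∀ A : Submodule E V, Good P A → tate P ≤ A ∧ Surface P A W := by
  refine ⟨fun χ hχ w hw => rank_le hG hw hχ, fun A hA => ?_⟩
  have h1 := tate_le hG hA.tate hA.enough hA.invariant
  exact ⟨h1, fun Ψ i F A' hS h2 h3 => classes_le hS h2 h3 h1⟩

end Pool.Agent.Results.MP_17a657_ag.CoveringsOverAnyField
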