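import Pool.Agent.J6H90.TK.Nt
import Pool.Agent.J6H90.TK.PEX
import Pool.Agent.J6H90.TK.PSPLIT
import Pool.Agent.J6H90.TK.PTRV
import Pool.Agent.J6H90.TK.PREG
import Pool.Agent.J6H90.TK.PAVG
import Pool.Agent.J6H90.TK.PFIN
import Pool.Agent.J6H90.TK.PRES

/-!
# The Tate conjecture for one prime and for all primes

Let `X` be a smooth projective variety over a number field `K`, `V_ℓ = H^2(X, ℚ_ℓ)` (or
`H^(2 u)(X, ℚ_ℓ)`, or the realisations of any motive of weight `2 u`), and let `W_ℓ` be the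
realisations of another motive of weight `2 u` over `K`. At the places `v` outside a finite set the
difference `a_v` of the traces of the geometric Frobenius elements on `V_ℓ` and `W_ℓ` is a rational
number which does not depend on `ℓ`, and `a_v ^ 2 ≤ C N(v) ^ (2 u)` (Deligne; Katz and Messing). The
`W_ℓ` are assumed to be semisimple, but not the `V_ℓ`. Suppose that `d a_v ^ 2` is an integral
multiple of `N(v) ^ (2 u)` (`d` a positive integer) for `v` in a set of upper density larger than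
`1 - 1 / (n ^ 2 + m ^ 2)`, where `n` and `m` are the ranks.

For a finite Galois extension `L` of `K` (an open normal subgroup `G` of the Galois group) let
`T_ℓ(V, L)` be the space of the Tate classes over `L`: the elements of `V_ℓ(u)` which are fixed by
the Galois group of `L`. Then there is an integer `t(L)` which does not depend on `ℓ`, such that

  `dim T_ℓ(V, L) ≤ dim T_ℓ(W, L) + t(L)` for all `ℓ`, with equality if `V_ℓ` is semisimple.

Suppose moreover that `dim T_ℓ(W, L)` does not depend on `ℓ` (this is known if `u = 1` and `W` is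
`H ^ 2` of a variety for which the Tate conjecture for divisors is known for all `ℓ`, for example an
abelian variety). Then: if the Tate conjecture for divisors holds for `X` over `L` at *one* prime
`ℓ'` such that `V_ℓ'` is semisimple then it holds for `X` over `L` at *all* primes `ℓ`. In the
theorem `A_ℓ` is the space of the Tate classes which are spanned by algebraic classes; its dimension
(the rank of the Néron-Severi group, for `u = 1`) does not depend on `ℓ`.

Proof. By the start file behind `EulerFactorTransfer` the difference of the traces on `V_ℓ(u)` and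
`W_ℓ(u)` is a rational function `φ` on a finite quotient, independent of `ℓ`. An element `e` of the
group algebra whose image in a suitable finite dimensional algebra is the projector to the
invariants, up to the radical of the trace form, has the trace `dim T_ℓ(W, L)` on `W_ℓ(u)` and a
trace `≥ dim T_ℓ(V, L)` on `V_ℓ(u)`; the difference is the average `t(L)` of `φ`.
-/

set_option autoImplicit false

namespace Pool.Agent.Results.MP_17a657_ag.TateClassesComparison

open NumberField IsDedekindDomain Filter Matrix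

/-- the absolute Galois group of the field `K`, with the Krull topology -/
abbrev AbsGal (K : Type) [Field K] : Type := Gal(AlgebraicClosure K/K)

section
variable {K : Type} [Field K]

/-- `g` is an arithmetic Frobenius element at the ideal `Q` of the ring of all algebraic integers,
for a residue field with `q` elements of the place below `Q`. -/
def FrobeniusAt (Q : Ideal (𝓞 (AlgebraicClosure K))) (q : ℕ) (g : AbsGal K) : Prop :=
  ∀ x : 𝓞 (AlgebraicClosure K), g • x - x ^ q ∈ Q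

/-- `Q` is a maximal ideal of the ring of all algebraic integers which lies above the finite
place `v` of `K`. -/
def LiesAbove [NumberField K] (v : HeightOneSpectrum (𝓞 K))
    (Q : Ideal (𝓞 (AlgebraicClosure K))) : Prop :=
  Q.IsMaximal ∧ Q.comap (algebraMap (𝓞 K) (𝓞 (AlgebraicClosure K))) = v.asIdeal

/-- the matrix of `g` -/
noncomputable def mat {F : Type} [Field F] {n : ℕ} (ρ : AbsGal K →* GL (Fin n) F) (g : AbsGal K) :
    Matrix (Fin n) (Fin n) F :=
  (ρ g : GL (Fin n) F)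

/-- The representation `ρ` is semisimple: every stable subspace has a stable complement. -/
def Semisimple {F : Type} [Field F] {n : ℕ} (ρ : AbsGal K →* GL (Fin n) F) : Prop :=
  ∀ S : Submodule F (Fin n → F), (∀ g, ∀ x ∈ S, mat ρ g *ᵥ x ∈ S) →
    ∃ T : Submodule F (Fin n → F), (∀ g, ∀ x ∈ T, mat ρ g *ᵥ x ∈ T) ∧ IsCompl S T

/-- the `ℓ`-adic cyclotomic character -/
noncomputable def cyclotomic (ℓ : ℕ) [Fact ℓ.Prime] (g : AbsGal K) : ℚ_[ℓ] :=
  ((cyclotomicCharacter (AlgebraicClosure K) ℓ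
    (MulSemiringAction.toRingAut (AbsGal K) (AlgebraicClosure K) g) : ℤ_[ℓ]ˣ) : ℤ_[ℓ])

/-- the Tate classes over the extension of `K` which corresponds to the subgroup `G`: the elements
of `V(u)`, `V` the space of the `ℓ`-adic representation `ρ`, which are fixed by `G`, that is, the
vectors `x` with `χ(g) ^ u g x = x` for all `g ∈ G`, where `χ` is the cyclotomic character -/
noncomputable def tateClasses {ℓ : ℕ} [Fact ℓ.Prime] {n : ℕ} (ρ : AbsGal K →* GL (Fin n) ℚ_[ℓ])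
    (u : ℤ) (G : Subgroup (AbsGal K)) : Submodule ℚ_[ℓ] (Fin n → ℚ_[ℓ]) where
  carrier := {x | ∀ g ∈ G, cyclotomic ℓ g ^ u • (mat ρ g *ᵥ x) = x}
  add_mem' := by
    intro x y hx hy g hg
    rw [Matrix.mulVec_add, smul_add, hx g hg, hy g hg]
  zero_mem' := by
    intro g _
    rw [Matrix.mulVec_zero, smul_zero]
  smul_mem' := by
    intro c x hx g hg
    rw [Matrix.mulVec_smul, smul_comm, hx g hg]

end

/-- The traces of the Frobenius elements on `V` and `W` are close to each other, with respect to the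
weight `2 u`: outside a finite set `B` of places the difference of the traces of the geometric
Frobenius elements at `v` on `V_ℓ` and `W_ℓ` is a rational number `a_v` which does not depend on `ℓ`
(not below `v`), and `a_v ^ 2 ≤ C N(v) ^ (2 u)`; for a positive integer `d`, the number `d a_v ^ 2`
is an integral multiple of `N(v) ^ (2 u)`, except for the places `v` in a set of lower density
`≤ θ`, where `θ (n ^ 2 + m ^ 2) < 1`. -/
def CloseTraces {K : Type} [Field K] [NumberField K] {n m : ℕ}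
    (V : ∀ (ℓ : ℕ) [Fact ℓ.Prime], AbsGal K →* GL (Fin n) ℚ_[ℓ])
    (W : ∀ (ℓ : ℕ) [Fact ℓ.Prime], AbsGal K →* GL (Fin m) ℚ_[ℓ]) (u : ℤ) : Prop :=
  ∃ (B : Set (HeightOneSpectrum (𝓞 K))) (a : HeightOneSpectrum (𝓞 K) → ℚ) (C : ℝ) (d : ℕ) (θ : ℝ),
    B.Finite ∧
    (∀ (ℓ : ℕ) [Fact ℓ.Prime], ∀ v, v ∉ B → (ℓ : 𝓞 K) ∉ v.asIdeal → ∀ Q, LiesAbove v Q →
      ∀ g, FrobeniusAt Q (Ideal.absNorm v.asIdeal) g →
        (mat (V ℓ) g⁻¹).trace - (mat (W ℓ) g⁻¹).trace = (a v : ℚ_[ℓ])) ∧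
    (∀ v, v ∉ B → (a v : ℝ) ^ 2 ≤ C * (Ideal.absNorm v.asIdeal : ℝ) ^ (2 * u)) ∧
    0 < d ∧ θ * ((n : ℝ) ^ 2 + (m : ℝ) ^ 2) < 1 ∧
    ∃ᶠ x : ℕ in atTop, ({v : HeightOneSpectrum (𝓞 K) | Ideal.absNorm v.asIdeal ≤ x ∧
      ¬ ∃ c : ℤ, (d : ℚ) * a v ^ 2 = (Ideal.absNorm v.asIdeal : ℚ) ^ (2 * u) * c}.ncard : ℝ) ≤
        θ * Nat.primeCounting x

section bridge

open Pool.Agent.J6H90.TK Pool.Agent.R401.Sup3

variable {K : Type} [Field K] [NumberField K] {ℓ : ℕ} [Fact ℓ.Prime] {n : ℕ}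

theorem cyclotomic_eq (g : AbsGal K) : cyclotomic ℓ g = cyc K ℓ ℚ_[ℓ] g := rfl

theorem tateClasses_eq (ρ : AbsGal K →* GL (Fin n) ℚ_[ℓ]) (u : ℤ) (G : Subgroup (AbsGal K)) :
    tateClasses ρ u G = inv (tw u (Pool.Agent.R401.Tr9.mh ρ) G) := by
  ext x
  constructor
  · intro hx g
    rw [tw_apply, Matrix.smul_mulVec]
    exact hx g g.2
  · intro hx g hg
    have h1 := hx ⟨g, hg⟩
    rw [tw_apply, Matrix.smul_mulVec] at h1
    exact h1

end bridge

/-- **Comparison of the numbers of Tate classes.** -/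
theorem result {K : Type} [Field K] [NumberField K] {n m : ℕ}
    (V : ∀ (ℓ : ℕ) [Fact ℓ.Prime], AbsGal K →* GL (Fin n) ℚ_[ℓ])
    (hV : ∀ (ℓ : ℕ) [Fact ℓ.Prime], Continuous (V ℓ))
    (W : ∀ (ℓ : ℕ) [Fact ℓ.Prime], AbsGal K →* GL (Fin m) ℚ_[ℓ])
    (hW : ∀ (ℓ : ℕ) [Fact ℓ.Prime], Continuous (W ℓ))
    (hss : ∀ (ℓ : ℕ) [Fact ℓ.Prime], Semisimple (W ℓ)) (u : ℤ) (hVW : CloseTraces V W u) :
    ∃ t : Subgroup (AbsGal K) → ℤ, ∀ G : Subgroup (AbsGal K), G.Normal →
      IsOpen (G : Set (AbsGal K)) →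
      -- comparison with `W`
      (∀ (ℓ : ℕ) [Fact ℓ.Prime],
        (Module.finrank ℚ_[ℓ] (tateClasses (V ℓ) u G) : ℤ) ≤
          Module.finrank ℚ_[ℓ] (tateClasses (W ℓ) u G) + t G ∧
        (Semisimple (V ℓ) → (Module.finrank ℚ_[ℓ] (tateClasses (V ℓ) u G) : ℤ) =
          Module.finrank ℚ_[ℓ] (tateClasses (W ℓ) u G) + t G)) ∧
      -- the Tate conjecture for one prime and for all primes
      ∀ d : ℕ, (∀ (ℓ : ℕ) [Fact ℓ.Prime], Module.finrank ℚ_[ℓ] (tateClasses (W ℓ) u G) = d) →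
        ∀ (A : ∀ (ℓ : ℕ) [Fact ℓ.Prime], Submodule ℚ_[ℓ] (Fin n → ℚ_[ℓ])) (r : ℕ),
          (∀ (ℓ : ℕ) [Fact ℓ.Prime], A ℓ ≤ tateClasses (V ℓ) u G ∧
            Module.finrank ℚ_[ℓ] (A ℓ) = r) →
          (∃ (ℓ' : ℕ) (_ : Fact ℓ'.Prime), Semisimple (V ℓ') ∧ A ℓ' = tateClasses (V ℓ') u G) →
          ∀ (ℓ : ℕ) [Fact ℓ.Prime], A ℓ = tateClasses (V ℓ) u G := by
  obtain ⟨B, a, C, d, θ, hB, htr, hC, hd, hθ, hdiv⟩ := hVW
  obtain ⟨u', φ, U, hw, hUn, hUo, hU, hφ⟩ := Pool.Agent.R401.Tr7.family V hV W hW B hB a (2 * u) (by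
      rintro ℓ _ v hv hℓ g ⟨Q, hQ, hQv, hg⟩
      exact htr ℓ v hv hℓ Q ⟨hQ, hQv⟩ g hg) C hC θ hθ hd (by
      refine (hdiv.and_eventually (Nat.tendsto_primeCounting.eventually_gt_atTop 0)).mono ?_
      rintro N ⟨h1, h3⟩
      have h4 : (0 : ℝ) < (Nat.primeCounting N : ℝ) := by exact_mod_cast h3
      unfold Pool.Agent.W401.Cheb.dens
      rw [div_le_iff₀ h4]
      exact h1)
  have hφ' : ∀ (ℓ : ℕ) [Fact ℓ.Prime] (y : AbsGal K), Pool.Agent.R401.Sup3.cyc K ℓ ℚ_[ℓ] y ^ u *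
      ((Pool.Agent.R401.Tr9.mh (V ℓ) y).trace - (Pool.Agent.R401.Tr9.mh (W ℓ) y).trace) =
        (φ y : ℚ_[ℓ]) := by
    intro ℓ _ y
    rcases hw with hw | hw
    · have h1 : u' = u := by omega
      rw [← h1]
      exact hφ ℓ y
    · have h1 := hφ ℓ y
      rw [hw y, Rat.cast_zero] at h1 ⊢
      have h2 := (mul_eq_zero.1 h1).resolve_left
        (zpow_ne_zero _ (Pool.Agent.R401.Sup.c_ne _ y))
      have h3 : (Pool.Agent.R401.Tr9.mh (V ℓ) y).trace - (Pool.Agent.R401.Tr9.mh (W ℓ) y).trace = 0 :=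
        h2
      rw [h3, mul_zero]
  open Pool.Agent.J6H90.TK in
  have hfin : S_FIN := fin ex split trv reg avg
  have key : ∀ G : Subgroup (AbsGal K), ∃ t : ℤ, G.Normal → IsOpen (G : Set (AbsGal K)) →
      ∀ (ℓ : ℕ) [Fact ℓ.Prime],
        (Module.finrank ℚ_[ℓ] (tateClasses (V ℓ) u G) : ℤ) ≤
          Module.finrank ℚ_[ℓ] (tateClasses (W ℓ) u G) + t ∧
        (Semisimple (V ℓ) → (Module.finrank ℚ_[ℓ] (tateClasses (V ℓ) u G) : ℤ) =
          Module.finrank ℚ_[ℓ] (tateClasses (W ℓ) u G) + t) := by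
    intro G
    by_cases hG : G.Normal ∧ IsOpen (G : Set (AbsGal K))
    swap
    · exact ⟨0, fun h1 h2 => absurd ⟨h1, h2⟩ hG⟩
    obtain ⟨t, ht⟩ := Pool.Agent.J6H90.TK.compare (n := n) (m := m) Pool.Agent.J6H90.TK.res hfin
      (u := u) hUn hUo hU hG.1 hG.2
    have h2p : Fact (Nat.Prime 2) := ⟨Nat.prime_two⟩
    obtain ⟨⟨r2, -, hr2⟩, -⟩ := ht 2 (V 2) (W 2) (hss 2) (hφ' 2)
    set s : ℤ := (r2 : ℤ) - Module.finrank ℚ_[2] (Pool.Agent.J6H90.TK.inv
      (Pool.Agent.J6H90.TK.tw u (Pool.Agent.R401.Tr9.mh (W 2)) G)) with hs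
    have hts : t = (s : ℚ) := by
      rw [hs]
      push_cast
      linarith
    refine ⟨s, fun _ _ ℓ _ => ?_⟩
    obtain ⟨⟨r, hr1, hr⟩, h2⟩ := ht ℓ (V ℓ) (W ℓ) (hss ℓ) (hφ' ℓ)
    rw [tateClasses_eq, tateClasses_eq]
    rw [hts] at hr h2
    refine ⟨?_, fun hV => ?_⟩
    · have h3 : (r : ℤ) = Module.finrank ℚ_[ℓ] (Pool.Agent.J6H90.TK.inv
          (Pool.Agent.J6H90.TK.tw u (Pool.Agent.R401.Tr9.mh (W ℓ)) G)) + s := by
        exact_mod_cast hr
      rw [← h3]
      exact_mod_cast hr1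
    · exact_mod_cast h2 hV
  choose t ht using key
  refine ⟨t, fun G hG hGo => ⟨fun ℓ _ => ht G hG hGo ℓ, ?_⟩⟩
  intro d' hd' A r hA ⟨ℓ', hℓ', hss', hA'⟩ ℓ _
  have h1 := (ht G hG hGo ℓ).1
  have h2 := (ht G hG hGo ℓ').2 hss'
  rw [hd' ℓ] at h1
  rw [hd' ℓ', ← hA', (hA ℓ').2] at h2
  rw [← h2] at h1
  refine Submodule.eq_of_le_of_finrank_le (hA ℓ).1 ?_
  rw [(hA ℓ).2]
  exact_mod_cast h1

end Pool.Agent.Results.MP_17a657_ag.TateClassesComparison
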