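import Mathlib
import Pool.Agent.J6H65.TW.Fi
import Pool.Agent.J6H65.TW.Sp

/-!
# The Tate conjecture at `ℓ` for 100% of the twists of every superelliptic curve with rational branch
# points, over all infinite finitely generated fields and their extensions

Let `R` be an integrally closed domain which is finitely generated as a ring and not a field, with
field of fractions `k`, and let `ℓ` be a prime number with `ℓ ≠ 0` in `R` such that `R` contains a
primitive `ℓ`-th root of unity. (Each infinite finitely generated field of characteristic different from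
`ℓ` with the `ℓ`-th roots of unity is the field of fractions of such an `R`.) We FIX any curve

`C : y ^ ℓ = c (t) (x - g 1 (t)) ⋯ (x - g N (t))`

over `k(t)`, where `c ≠ 0` and the pairwise different `g 1, ..., g N` are any polynomials over `k`, `N` is
prime to `ℓ`. (Each superelliptic curve over `k(t)` of degree `N` prime to `ℓ` in `x` with rational branch
points has such an equation; for `ℓ = 2` each elliptic curve over `k(t)` with rational points of order
two and each hyperelliptic curve of odd degree with rational Weierstrass points. The genus is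
`(ℓ - 1) (N - 1) / 2`.) We consider the twists of `C` by the polynomials `D` over `R` of degree at most
`n`, `n ≥ 5`, and by constants `δ ≠ 0` of extension fields `L` of `k`,

`C_{D, δ} : y ^ ℓ = δ D (t) c (t) (x - g 1 (t)) ⋯ (x - g N (t))` over `L(t)`,

and the surfaces fibred over the `t`-line with these generic fibres. Let `J` be the Jacobian of
`C_{D, δ}`, `L'` a separable closure of `L`, `K = L(t)` and `F = L'(t)`.

Call `D` good if `D` is irreducible over `k` of degree `n`, separable and prime to `c` and to the
differences `g i - g j`, and for EVERY extension field `L` of `k` (for example `L = k`) the following is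
true.

(A) If the elements of `L` which are separable algebraic over `k` lie in a normal extension `M` of `k` in
`L'` such that `D` does not split into linear factors over `M`, then for EVERY constant `δ ≠ 0` of `L`

(i) the Tate conjecture for divisors at the prime `ℓ` holds for the surface (`TateAt`): the classes in
`V_ℓ Sel(J / F)` which are fixed by the Galois group of `L` come from `J(K)`;

(ii) in fact all these classes are zero, even those without a local condition at `t = ∞`, that is, for the
surface without its fibre over `t = ∞` (`NoClasses`);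

(iii) over `K = L(t)` every class of `ℓ`-power order in `H ^ 1 (K, J)` which is trivial over the
completions of `K` at all the closed points of the affine line is zero (`ShaTrivial`);

(iv) every point of `J(K)` is the sum of a point killed by `ℓ` and of `ℓ` times a point; if `J(K)` is
finitely generated (the theorem of Lang and Néron, for finitely generated `L`), then it is finite
(`PointsTorsion`).

(B) The same is true if for each element of `L` which is separable algebraic over `k` the Galois group of
its minimal polynomial over `k` is solvable.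

Theorem. (1) (Congruences.) For every `η > 0` there is an ideal `I` of `R` with finite quotient and a set
of residue classes modulo `I` of polynomials, with proportion at least `1 - η` among all the residue
classes, such that EVERY polynomial `D` over `R` in one of these residue classes is good.

(2) (100%.) Let `B 0`, `B 1`, ... be a sequence of nonempty finite sets of polynomials of degree at most
`n` over `R` which is equidistributed modulo each ideal of `R` with finite quotient. Then the proportion
of the good `D` in `B i` tends to `1`.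

The proof. As in the case of a general curve (`MP_89bcae_ag/SuperellipticAllFields`) the first layer of an
invariant class is described by products of powers of the irreducible factors over `L` of
`P = c ∏ (g i - g j)` and of constants, which are `ℓ`-th powers in the residue field `L(θ)` of a zero `θ`
of `D`. Here `P` is fixed and its factors and their decomposition over `L` are arbitrary. Let `Q` be a
power of the characteristic such that the elements `ρ = r ^ Q`, `r` a zero of `P`, are separable over `k`,
and `k₁` the finite Galois extension of `k` generated by them. The maximal ideals of `R` below maximal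
ideals of degree one of the integral closure of `R` in `k₁` are infinitely many (`TW.Dg1`), and modulo
these the Weil bound for character sums gives a positive proportion of polynomials `D` with distinct
zeros for which a given product `f` of powers of the polynomials `X ^ Q - ρ`, not all exponents divisible
by `ℓ`, has values at two of the zeros whose quotient is not an `ℓ`-th power (`TW.Cnt`, `TW.Sv`). So for
100% of the `D` the Galois group of `D` over `k` and over `k₁` is the full symmetric group and the
quotients `f(x) / f(y)` are not `ℓ`-th powers in the splitting field of `D` over `k₁`. This is carried to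
`L` through the compositum `L₁` of `L` and `k₁`: `D` does not split over `M k₁` (`TW.Cmp`), the separable
elements of `L₁` lie in `M k₁` (`TW.Sol`), and the multiplicities of the zeros of an irreducible factor of
`P` over `L` are powers of the characteristic, which are prime to `ℓ` (`TW.Mult`, `TW.Pws`).
-/

set_option autoImplicit false
set_option linter.all false

namespace Pool.Agent.Results.MP_17a657_ag.TwistsAllFields

open Polynomial Filter Topology
open Pool.Agent.TH115.GD (IsTower)
open Pool.Agent.Y713.Tate (TateAt)
open Pool.Agent.J6H65.ST (NoClasses ShaTrivial PointsTorsion)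
open scoped Classical

/-- The polynomials of degree at most `n` over `R`, given by their coefficients. -/
abbrev Coeffs (n : ℕ) (R : Type) : Type := Fin (n + 1) → R

/-- The polynomial with the coefficients `y`, over `k`. -/
noncomputable def poly {R : Type} [CommRing R] (k : Type) [Field k] [Algebra R k] {n : ℕ}
    (y : Coeffs n R) : k[X] :=
  ∑ j : Fin (n + 1), C (algebraMap R k (y j)) * X ^ (j : ℕ)

/-- The polynomial `δ D (t) c (t) (x - g 1 (t)) ... (x - g N (t))` in `x` over `K = L(t)`, for polynomials
over the subfield `k` of `L` and a constant `δ` of `L`. -/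
noncomputable def curve {k : Type} [Field k] {L : Type} (K : Type) [Field L] [Algebra k L] [Field K]
    [Algebra L[X] K] {N : ℕ} (g : Fin N → k[X]) (c D : k[X]) (δ : L) : K[X] :=
  C (algebraMap L[X] K (C δ * (D * c).map (algebraMap k L))) *
    ∏ i : Fin N, (X - C (algebraMap L[X] K ((g i).map (algebraMap k L))))

/-- The conclusions for the curve `y ^ ℓ = f(x)` over `K = L(t)`, with `F = L'(t)`. -/
def Holds (ℓ : ℕ) (L L' : Type) {K : Type} (F : Type) [Field L] [Field L'] [Field K]
    [Algebra L[X] K] [IsFractionRing L[X] K] [Field F] [Algebra L'[X] F] [IsFractionRing L'[X] F]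
    [Algebra K F] (f : K[X]) : Prop :=
  TateAt (F := F) ℓ L' f ∧ NoClasses (F := F) ℓ L' f ∧ ShaTrivial ℓ L f ∧ PointsTorsion ℓ f

/-- Condition (A) or (B) on the elements of `L` which are separable algebraic over `k`. -/
def SmallConstants {k : Type} [Field k] (D : k[X]) (L L' : Type) [Field L]
    [Field L'] [Algebra L L'] [Algebra k L] [Algebra k L'] : Prop :=
  (∃ M : IntermediateField k L', Normal k M ∧
    (∀ x : L, IsSeparable k x → algebraMap L L' x ∈ M) ∧ ¬ (D.map (algebraMap k M)).Splits) ∨
  ∀ x : L, IsSeparable k x → Group.IsSolvable (minpoly k x).Gal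

/-- The conclusions over all the extensions `L` of `k` which satisfy (A) or (B), for all the twists by
constants of `L`; `L'` is a separable closure of `L`, `K = L(t)` and `F = L'(t)`. -/
def HoldsOverAll (k : Type) [Field k] (ℓ : ℕ) {N : ℕ} (g : Fin N → k[X]) (c D : k[X]) : Prop :=
  ∀ (L L' K F : Type) [Field L] [Field L'] [Algebra L L'] [Field K] [Algebra L[X] K]
    [IsFractionRing L[X] K] [Field F] [Algebra L'[X] F] [IsFractionRing L'[X] F] [Algebra K F]
    [Algebra k L] [Algebra k L'] [IsScalarTower k L L'], IsTower L L' K F →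
      SmallConstants D L L' → ∀ δ : L, δ ≠ 0 → Holds ℓ L L' F (curve K g c D δ)

/-- The good polynomials `D`. -/
structure Good (k : Type) [Field k] (ℓ n : ℕ) {N : ℕ} (g : Fin N → k[X]) (c D : k[X]) : Prop where
  irr : Irreducible D ∧ D.natDegree = n ∧ D.Separable
  prime : ¬ D ∣ c ∧ ∀ i j : Fin N, i ≠ j → ¬ D ∣ g i - g j
  holds : HoldsOverAll k ℓ g c D

/-- The polynomial `y` over `R` is in the residue class `z`. -/
def InClass {R : Type} [CommRing R] {n : ℕ} {M : Ideal R} (y : Coeffs n R)
    (z : Coeffs n (R ⧸ M)) : Prop :=
  ∀ j, Ideal.Quotient.mk M (y j) = z j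

/-- A sequence of finite sets of polynomials which is equidistributed modulo each ideal with finite
quotient. -/
def Equidistributed {R : Type} [CommRing R] {n : ℕ} (B : ℕ → Finset (Coeffs n R)) : Prop :=
  ∀ M : Ideal R, Finite (R ⧸ M) → ∀ z : Coeffs n (R ⧸ M),
    Tendsto (fun i => (((B i).filter (fun y => InClass y z)).card : ℝ) / ((B i).card : ℝ)) atTop
      (𝓝 (1 / (Nat.card (Coeffs n (R ⧸ M)) : ℝ)))

theorem good_of {k k₁ : Type} [Field k] [Field k₁] [Algebra k k₁] [FiniteDimensional k k₁]
    [IsGalois k k₁] {ℓ : ℕ} (hℓ : ℓ.Prime) (hk : (ℓ : k) ≠ 0) {ζ : k}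
    (hζ : IsPrimitiveRoot ζ ℓ) {N n Q m : ℕ} (hN : ¬ ℓ ∣ N) (hn : 5 ≤ n) {g : Fin N → k[X]}
    (hg : Function.Injective g) {c : k[X]} (hc : c ≠ 0) {ρ : Fin m → k₁}
    (hRF : J6H65.TW.RF k k₁ (J6H65.TW.Pp c g) Q ρ) {D : k[X]} (H : J6H65.TW.HyT ℓ n Q ρ D) :
    Good k ℓ n g c D := by
  have hnd := J6H65.TW.not_dvd0 H hℓ hn hRF
  have hext : ∀ (L L' K F : Type) [Field L] [Field L'] [Algebra L L'] [Field K] [Algebra L[X] K]
    [IsFractionRing L[X] K] [Field F] [Algebra L'[X] F] [IsFractionRing L'[X] F] [Algebra K F]
    [Algebra k L] [Algebra k L'] [IsScalarTower k L L'], IsTower L L' K F →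
      ∀ M : IntermediateField k L', Normal k M →
        (∀ x : L, IsSeparable k x → algebraMap L L' x ∈ M) →
        ¬ (D.map (algebraMap k M)).Splits →
        ∀ δ : L, δ ≠ 0 → Holds ℓ L L' F (curve K g c D δ) := by
    intro L L' K F _ _ _ _ _ _ _ _ _ _ _ _ _ hT M hMn hM h1 δ hδ
    haveI := hT.sep
    have hkL : (ℓ : L) ≠ 0 := by
      rw [← map_natCast (algebraMap k L)]
      exact (_root_.map_ne_zero _).2 hk
    have hζL : IsPrimitiveRoot (algebraMap k L ζ) ℓ := hζ.map_of_injective (algebraMap k L).injective
    have he : Function.Injective fun i : Fin N => algebraMap L[X] K ((g i).map (algebraMap k L)) :=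
      fun i j h => hg (Polynomial.map_injective _ (algebraMap k L).injective
        (IsFractionRing.injective L[X] K h))
    have hδ' : algebraMap L[X] K (C δ * (D * c).map (algebraMap k L)) ≠ 0 := by
      rw [Ne, map_eq_zero_iff _ (IsFractionRing.injective L[X] K)]
      refine mul_ne_zero (C_ne_zero.2 hδ) ?_
      rw [Polynomial.map_ne_zero_iff (algebraMap k L).injective]
      exact mul_ne_zero H.f0.1.1.ne_zero hc
    obtain ⟨DD, h2, h3, h4⟩ : ∃ DD : Pool.Agent.Y713.SE.Dat ℓ N K,
        DD.δ = algebraMap L[X] K (C δ * (D * c).map (algebraMap k L)) ∧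
        (∀ i, DD.e i = algebraMap L[X] K ((g i).map (algebraMap k L))) ∧
        DD.f = curve K g c D δ :=
      ⟨Pool.Agent.Y713.SE.tDat (k := L) (K := K) hℓ hkL hζL hδ' he hN, rfl, fun i => rfl, rfl⟩
    obtain ⟨T, hC⟩ := J6H65.TW.cnd_L L' H hn hk hζ hc hg hRF M hM h1 (D := DD) ⟨hδ, h2, h3⟩
    obtain ⟨a1, a2⟩ := J6H65.TW.sha_cnd hC hkL
    have a3 : NoClasses (F := F) ℓ L' DD.f := J6H65.TW.nc_cnd hT hC hkL hζL
    rw [h4] at a1 a2 a3
    exact ⟨a3.tateAt, a3, a1, a2⟩
  refine ⟨⟨H.f0.1.1, H.f0.1.2, H.f0.2.1⟩, ⟨fun h => hnd (h.trans (J6H65.TW.c_dvd c g)),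
    fun i j hij h => hnd (h.trans (J6H65.TW.sub_dvd c g hij))⟩, ?_⟩
  intro L L' K F _ _ _ _ _ _ _ _ _ _ _ _ _ hT hS
  rcases hS with ⟨M, h1, h2, h3⟩ | hM
  · exact hext L L' K F hT M h1 h2 h3
  haveI := hT.sep
  have hcl : IsSepClosed L' := IsSepClosure.sep_closed L
  exact hext L L' K F hT (Pool.Agent.X243.Gen.solvM k L')
    (Pool.Agent.X243.Gen.solvM_normal L')
    (fun x hx => Pool.Agent.X243.Gen.mem_solvM hx (hM x hx))
    (Pool.Agent.X243.Gen.solvM_not_splits L' H.f0.2.1 (by rw [H.f0.1.2]; exact hn) H.f0.2.2)

theorem card_irrel {α : Type} (s : Finset α) (p q : α → Prop) (i : DecidablePred p)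
    (j : DecidablePred q) (h : ∀ a, p a ↔ q a) :
    (@Finset.filter α p i s).card = (@Finset.filter α q j s).card := by
  obtain rfl : p = q := funext fun a => propext (h a)
  rw [Subsingleton.elim i j]

theorem result :
    ∀ (R k : Type) [CommRing R] [IsDomain R] [IsIntegrallyClosed R] [Algebra.FiniteType ℤ R]
      [Field k] [Algebra R k] [IsFractionRing R k], ¬ IsField R →
      ∀ ℓ : ℕ, ℓ.Prime → (ℓ : R) ≠ 0 → ∀ ζ : R, IsPrimitiveRoot ζ ℓ →
      ∀ N n : ℕ, ¬ ℓ ∣ N → 5 ≤ n →
      ∀ (g : Fin N → k[X]) (c : k[X]), Function.Injective g → c ≠ 0 →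
        (∀ η : ℝ, 0 < η → ∃ M : Ideal R, Finite (R ⧸ M) ∧
          (1 - η) * (Nat.card (Coeffs n (R ⧸ M)) : ℝ) ≤
          (({z : Coeffs n (R ⧸ M) | ∀ y : Coeffs n R, InClass y z →
                Good k ℓ n g c (poly k y)}.ncard : ℕ) : ℝ)) ∧
        (∀ B : ℕ → Finset (Coeffs n R), (∀ i, (B i).Nonempty) → Equidistributed B →
          Tendsto (fun i => (((B i).filter (fun y => Good k ℓ n g c (poly k y))).card : ℝ) /
            ((B i).card : ℝ)) atTop (𝓝 1)) := by
  intro R k _ _ _ _ _ _ _ hR ℓ hℓ h0 ζ hζ N n hN hn g c hg hc
  have hk : (ℓ : k) ≠ 0 := by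
    rw [← map_natCast (algebraMap R k)]
    exact (map_ne_zero_iff _ (IsFractionRing.injective R k)).2 h0
  have hζk : IsPrimitiveRoot (algebraMap R k ζ) ℓ :=
    hζ.map_of_injective (IsFractionRing.injective R k)
  have hcard : ∀ M : Ideal R, (Nat.card (Coeffs n (R ⧸ M)) : ℝ) =
      (Nat.card (R ⧸ M) : ℝ) ^ (Fintype.card (Fin (n + 1))) := by
    intro M
    rw [Nat.card_fun, Nat.card_eq_fintype_card (α := Fin (n + 1))]
    push_cast
    rfl
  obtain ⟨k₁, i1, i2, i3, i4, Q, m, ρ, hRF, hsv⟩ := J6H65.TW.sieveP R k hR hℓ h0 hζ
    (by omega : 3 ≤ n) (J6H65.TW.Pp_ne hc hg)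
  have hpoly : ∀ y : Coeffs n R, (Pool.Agent.Y160.T3.bF y).map (algebraMap R k) = poly k y :=
    fun y => Pool.Agent.X243.Tate.bF_map (algebraMap R k) _
  have key : ∀ η : ℝ, 0 < η → ∃ M : Ideal R, Finite (R ⧸ M) ∧
      (1 - η) * (Nat.card (R ⧸ M) : ℝ) ^ (Fintype.card (Fin (n + 1))) ≤
        (({x : Fin (n + 1) → R ⧸ M | ∀ y : Fin (n + 1) → R,
          (∀ j, Ideal.Quotient.mk M (y j) = x j) →
            y ∈ {y : Coeffs n R | Good k ℓ n g c (poly k y)}}).ncard : ℝ) := by
    intro η hη
    obtain ⟨M, hM, hd⟩ := hsv η hη
    have := hM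
    refine ⟨M, hM, hd.trans ?_⟩
    have h3 : ∀ S T : Set (Fin (n + 1) → R ⧸ M), S ⊆ T →
        ((S.ncard : ℕ) : ℝ) ≤ ((T.ncard : ℕ) : ℝ) := fun S T h => by
      exact_mod_cast Set.ncard_le_ncard h (Set.toFinite _)
    apply h3
    intro x hx y hy
    have h4 := hx y hy
    rw [hpoly] at h4
    exact good_of hℓ hk hζk hN hn hg hc hRF h4
  constructor
  · intro η hη
    obtain ⟨M, hM, hd⟩ := key η hη
    refine ⟨M, hM, ?_⟩
    rw [hcard]
    exact hd
  · intro B hB heq
    exact Pool.Agent.X243.Gen.tendsto_of_dens {y : Coeffs n R | Good k ℓ n g c (poly k y)} key B hB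
      (by
        intro M hM x
        have h1 := heq M hM x
        rw [hcard] at h1
        refine h1.congr fun i => ?_
        exact congrArg (fun m : ℕ => (m : ℝ) / ((B i).card : ℝ))
          (card_irrel _ _ _ _ _ fun _ => Iff.rfl))

end Pool.Agent.Results.MP_17a657_ag.TwistsAllFields
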